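import Pool.Agent.Lib.H43SN.U

/-! # A unit simplex with one edge prolonged: all determinants of differences are at most `M` -/

set_option autoImplicit false

namespace H73SN

open Finset

/-- The points `t e_b`, `0 ≤ t ≤ M`, and the unit vectors `e_1, ..., e_(b-1)` of `ℤ^b`. -/
def ycol (M b : ℕ) (s : Fin (M + b)) (j : Fin b) : ℤ :=
  if s.1 ≤ M then (if j.1 + 1 = b then (s.1 : ℤ) else 0) else (if s.1 = M + j.1 + 1 then 1 else 0)

/-- The same points with the last coordinate replaced by the indicator of `τ < t`. -/
private def zcol (M b τ : ℕ) (s : Fin (M + b)) (j : Fin b) : ℤ :=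
  if s.1 ≤ M then (if j.1 + 1 = b then (if τ < s.1 then 1 else 0) else 0) else (if s.1 = M + j.1 + 1 then 1 else 0)

private theorem zcol_unit (M b τ : ℕ) (s : Fin (M + b)) :
    ∃ u : Option (Fin b), ∀ j, zcol M b τ s j = if u = some j then 1 else 0 := by
  by_cases hs : s.1 ≤ M
  · by_cases ht : τ < s.1
    · rcases Nat.eq_zero_or_pos b with hb | hb
      · subst hb
        exact ⟨none, fun j => j.elim0⟩
      · refine ⟨some ⟨b - 1, by omega⟩, fun j => ?_⟩
        unfold zcol
        rw [if_pos hs]
        by_cases hj : j.1 + 1 = b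
        · rw [if_pos hj, if_pos ht, if_pos]
          congr 1
          exact Fin.ext (by simp only; omega)
        · rw [if_neg hj, if_neg]
          intro h
          have h1 := congrArg Fin.val (Option.some.inj h)
          simp only at h1
          omega
    · refine ⟨none, fun j => ?_⟩
      unfold zcol
      rw [if_pos hs, if_neg ht]
      simp
  · have h1 := s.2
    refine ⟨some ⟨s.1 - M - 1, by omega⟩, fun j => ?_⟩
    unfold zcol
    rw [if_neg hs]
    by_cases hj : s.1 = M + j.1 + 1
    · rw [if_pos hj, if_pos]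
      congr 1
      exact Fin.ext (by simp only; omega)
    · rw [if_neg hj, if_neg]
      intro h
      have h1 := congrArg Fin.val (Option.some.inj h)
      simp only at h1
      omega

private theorem sum_ind (M t : ℕ) (h : t ≤ M) : ∑ τ ∈ range M, (if τ < t then (1 : ℤ) else 0) = t := by
  rw [← Finset.sum_filter]
  have : (range M).filter (fun τ => τ < t) = range t := by
    ext τ
    simp only [mem_filter, mem_range]
    omega
  rw [this]
  simp

/-- All determinants of differences of the points are at most `M`. -/
theorem col_bound (M b : ℕ) (hb : 1 ≤ b) (u v : Fin b → Fin (M + b)) :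
    |(Matrix.of fun l j : Fin b => ycol M b (u l) j - ycol M b (v l) j).det| ≤ M := by
  classical
  set c0 : Fin b := ⟨b - 1, by omega⟩ with hc0
  set N : Matrix (Fin b) (Fin b) ℤ := Matrix.of fun l j : Fin b => ycol M b (u l) j - ycol M b (v l) j with hN
  have key : N.det = ∑ τ ∈ range M, (Matrix.of fun l j : Fin b => zcol M b τ (u l) j - zcol M b τ (v l) j).det := by
    have h1 : N = N.updateCol c0 (∑ τ ∈ range M, fun l => zcol M b τ (u l) c0 - zcol M b τ (v l) c0) := by
      ext l j
      by_cases hj : j = c0
      · subst hj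
        rw [Matrix.updateCol_self, Finset.sum_apply, Finset.sum_sub_distrib]
        have h2 : ∀ s : Fin (M + b), ∑ τ ∈ range M, zcol M b τ s c0 = ycol M b s c0 := by
          intro s
          unfold zcol ycol
          have h3 : c0.1 + 1 = b := by simp only [hc0]; omega
          by_cases hs : s.1 ≤ M
          · simp only [if_pos hs, if_pos h3]
            exact sum_ind M s.1 hs
          · have h4 : ¬ s.1 = M + c0.1 + 1 := by have := s.2; omega
            simp only [if_neg hs, if_neg h4, Finset.sum_const_zero]
        rw [h2, h2]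
        rfl
      · rw [Matrix.updateCol_ne hj]
    have h5 : N.det = (N.updateCol c0 (∑ τ ∈ range M, fun l => zcol M b τ (u l) c0 - zcol M b τ (v l) c0)).det := by
      rw [← h1]
    rw [h5, ← Matrix.det_transpose, ← Matrix.updateRow_transpose]
    have h6 := (Matrix.detRowAlternating (R := ℤ) (n := Fin b)).toMultilinearMap.map_update_sum (range M) c0
      (fun τ => fun l => zcol M b τ (u l) c0 - zcol M b τ (v l) c0) N.transpose
    have h7 : (N.transpose.updateRow c0 (∑ τ ∈ range M, fun l => zcol M b τ (u l) c0 - zcol M b τ (v l) c0)).det =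
        ∑ τ ∈ range M, (N.transpose.updateRow c0 (fun l => zcol M b τ (u l) c0 - zcol M b τ (v l) c0)).det := h6
    rw [h7]
    refine Finset.sum_congr rfl fun τ _ => ?_
    rw [Matrix.updateRow_transpose, Matrix.det_transpose]
    congr 1
    ext l j
    by_cases hj : j = c0
    · subst hj
      rw [Matrix.updateCol_self]
      rfl
    · rw [Matrix.updateCol_ne hj]
      have h8 : ¬ j.1 + 1 = b := by
        intro h
        apply hj
        exact Fin.ext (by simp only [hc0]; omega)
      simp only [hN, Matrix.of_apply, ycol, zcol, if_neg h8]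
  rw [key]
  calc |∑ τ ∈ range M, (Matrix.of fun l j : Fin b => zcol M b τ (u l) j - zcol M b τ (v l) j).det|
      ≤ ∑ τ ∈ range M, |(Matrix.of fun l j : Fin b => zcol M b τ (u l) j - zcol M b τ (v l) j).det| :=
        Finset.abs_sum_le_sum_abs _ _
    _ ≤ ∑ τ ∈ range M, (1 : ℤ) := by
        refine Finset.sum_le_sum fun τ _ => H43SN.abs_det_le_one _ fun l => ?_
        obtain ⟨p, hp⟩ := zcol_unit M b τ (u l)
        obtain ⟨q, hq⟩ := zcol_unit M b τ (v l)
        exact ⟨p, q, fun j => by rw [Matrix.of_apply, hp j, hq j]⟩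
    _ = M := by simp

theorem ycol_injective (M b : ℕ) (hb : 1 ≤ b) : Function.Injective (ycol M b) := by
  intro s s' h
  have hs := s.2
  have hs' := s'.2
  apply Fin.ext
  by_cases h1 : s.1 ≤ M
  · have e1 := congrFun h ⟨b - 1, by omega⟩
    have h3 : b - 1 + 1 = b := by omega
    by_cases h2 : s'.1 ≤ M
    · simp only [ycol, if_pos h1, if_pos h2, if_pos h3] at e1
      exact_mod_cast e1
    · exfalso
      have e2 := congrFun h ⟨s'.1 - M - 1, by omega⟩
      have h4 : ¬ (s'.1 - M - 1 + 1 = b) := by omega
      have h5 : s'.1 = M + (s'.1 - M - 1) + 1 := by omega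
      simp only [ycol, if_pos h1, if_neg h2, if_neg h4, if_pos h5] at e2
      exact absurd e2 (by norm_num)
  · by_cases h2 : s'.1 ≤ M
    · exfalso
      have e2 := congrFun h ⟨s.1 - M - 1, by omega⟩
      have h4 : ¬ (s.1 - M - 1 + 1 = b) := by omega
      have h5 : s.1 = M + (s.1 - M - 1) + 1 := by omega
      simp only [ycol, if_neg h1, if_pos h2, if_neg h4, if_pos h5] at e2
      exact absurd e2 (by norm_num)
    · have e2 := congrFun h ⟨s.1 - M - 1, by omega⟩
      have h5 : s.1 = M + (s.1 - M - 1) + 1 := by omega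
      simp only [ycol, if_neg h1, if_neg h2, if_pos h5] at e2
      by_contra hne
      rw [if_neg (by omega)] at e2
      exact absurd e2 (by norm_num)

theorem ycol_zero (M b : ℕ) (s : Fin (M + b)) (hs : s.1 = 0) (j : Fin b) : ycol M b s j = 0 := by
  simp [ycol, hs]

theorem ycol_one (M b : ℕ) (hM : 1 ≤ M) (s : Fin (M + b)) (hs : s.1 = 1) (j : Fin b) :
    ycol M b s j = if j.1 + 1 = b then 1 else 0 := by
  simp [ycol, hs, hM]

theorem ycol_unit (M b : ℕ) (s : Fin (M + b)) (i : ℕ) (hs : s.1 = M + i + 1) (j : Fin b) :
    ycol M b s j = if j.1 = i then 1 else 0 := by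
  unfold ycol
  rw [if_neg (by omega)]
  by_cases h : j.1 = i
  · rw [if_pos h, if_pos (by omega)]
  · rw [if_neg h, if_neg (by omega)]

end H73SN
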