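import Pool.Agent.Lib.H43SN.W

/-! # Three columns: `4 l + 3` points of the plane with all determinants of differences at most `4 l` -/

set_option autoImplicit false

namespace H73SN

open Finset H43SN

/-- The points of the three columns `{0} × [0, l]`, `{1} × [0, 2 l]`, `{2} × [l, 2 l]`. -/
def hexPt (l t : ℕ) : Fin 2 → ℤ :=
  if t ≤ l then ![0, (t : ℤ)] else if t ≤ 3 * l + 1 then ![1, (t : ℤ) - (l + 1)] else ![2, (t : ℤ) - (2 * l + 2)]

/-- The set of these `4 l + 3` points. -/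
def hexSet (l : ℕ) : Finset (Fin 2 → ℤ) := (range (4 * l + 3)).image (hexPt l)

theorem hexPt_injective (l : ℕ) : Function.Injective (hexPt l) := by
  intro t t' h
  have h0 := congrFun h 0
  have h1 := congrFun h 1
  unfold hexPt at h0 h1
  by_cases a1 : t ≤ l
  · by_cases b1 : t' ≤ l
    · simp only [if_pos a1, if_pos b1, Matrix.cons_val_one, Matrix.cons_val_zero] at h1
      exact_mod_cast h1
    · by_cases b2 : t' ≤ 3 * l + 1
      · simp [if_pos a1, if_neg b1, if_pos b2] at h0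
      · simp [if_pos a1, if_neg b1, if_neg b2] at h0
  · by_cases a2 : t ≤ 3 * l + 1
    · by_cases b1 : t' ≤ l
      · simp [if_neg a1, if_pos a2, if_pos b1] at h0
      · by_cases b2 : t' ≤ 3 * l + 1
        · simp only [if_neg a1, if_pos a2, if_neg b1, if_pos b2, Matrix.cons_val_one, Matrix.cons_val_zero] at h1
          omega
        · simp [if_neg a1, if_pos a2, if_neg b1, if_neg b2] at h0
    · by_cases b1 : t' ≤ l
      · simp [if_neg a1, if_neg a2, if_pos b1] at h0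
      · by_cases b2 : t' ≤ 3 * l + 1
        · simp [if_neg a1, if_neg a2, if_neg b1, if_pos b2] at h0
        · simp only [if_neg a1, if_neg a2, if_neg b1, if_neg b2, Matrix.cons_val_one, Matrix.cons_val_zero] at h1
          omega

theorem card_hexSet (l : ℕ) : (hexSet l).card = 4 * l + 3 := by
  rw [hexSet, Finset.card_image_of_injective _ (hexPt_injective l), Finset.card_range]

theorem mem_hexSet {l : ℕ} {y : Fin 2 → ℤ} (h : y ∈ hexSet l) :
    (y 0 = 0 ∧ 0 ≤ y 1 ∧ y 1 ≤ l) ∨ (y 0 = 1 ∧ 0 ≤ y 1 ∧ y 1 ≤ 2 * l) ∨ (y 0 = 2 ∧ l ≤ y 1 ∧ y 1 ≤ 2 * l) := by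
  obtain ⟨t, ht, rfl⟩ := mem_image.1 h
  have ht' := mem_range.1 ht
  unfold hexPt
  by_cases a1 : t ≤ l
  · left
    rw [if_pos a1]
    refine ⟨rfl, ?_, ?_⟩
    · show (0 : ℤ) ≤ (t : ℤ)
      omega
    · show (t : ℤ) ≤ l
      omega
  · right
    rw [if_neg a1]
    by_cases a2 : t ≤ 3 * l + 1
    · left
      rw [if_pos a2]
      refine ⟨rfl, ?_, ?_⟩
      · show (0 : ℤ) ≤ (t : ℤ) - (l + 1)
        omega
      · show (t : ℤ) - (l + 1) ≤ 2 * l
        omega
    · right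
      rw [if_neg a2]
      refine ⟨rfl, ?_, ?_⟩
      · show (l : ℤ) ≤ (t : ℤ) - (2 * l + 2)
        omega
      · show (t : ℤ) - (2 * l + 2) ≤ 2 * l
        omega

/-- All determinants of differences are at most `4 l`. -/
theorem hex_det (l : ℕ) (u v : Fin 2 → Fin 2 → ℤ) (hu : ∀ i, u i ∈ hexSet l) (hv : ∀ i, v i ∈ hexSet l) :
    |(Matrix.of fun i j : Fin 2 => u i j - v i j).det| ≤ ((4 * l : ℕ) : ℤ) := by
  rw [Matrix.det_fin_two]
  simp only [Matrix.of_apply]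
  push_cast
  rcases mem_hexSet (hu 0) with ⟨h1, h1a, h1b⟩ | ⟨h1, h1a, h1b⟩ | ⟨h1, h1a, h1b⟩ <;>
  rcases mem_hexSet (hu 1) with ⟨h2, h2a, h2b⟩ | ⟨h2, h2a, h2b⟩ | ⟨h2, h2a, h2b⟩ <;>
  rcases mem_hexSet (hv 0) with ⟨h3, h3a, h3b⟩ | ⟨h3, h3a, h3b⟩ | ⟨h3, h3a, h3b⟩ <;>
  rcases mem_hexSet (hv 1) with ⟨h4, h4a, h4b⟩ | ⟨h4, h4a, h4b⟩ | ⟨h4, h4a, h4b⟩ <;>
  · rw [h1, h2, h3, h4, abs_le]
    constructor <;> omega

theorem hex_ne (l : ℕ) (hl : 1 ≤ l) : ∃ u v : Fin 2 → Fin 2 → ℤ, (∀ i, u i ∈ hexSet l) ∧ (∀ i, v i ∈ hexSet l) ∧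
    (Matrix.of fun i j : Fin 2 => u i j - v i j).det ≠ 0 := by
  refine ⟨![hexPt l 1, hexPt l (l + 1)], fun _ => hexPt l 0, ?_, ?_, ?_⟩
  · intro i
    fin_cases i
    · exact mem_image_of_mem _ (mem_range.2 (by omega))
    · exact mem_image_of_mem _ (mem_range.2 (by omega))
  · intro i
    exact mem_image_of_mem _ (mem_range.2 (by omega))
  · rw [Matrix.det_fin_two]
    have e1 : hexPt l 1 = ![0, 1] := by
      unfold hexPt
      rw [if_pos hl]
      rfl
    have e2 : hexPt l (l + 1) = ![1, 0] := by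
      unfold hexPt
      rw [if_neg (by omega), if_pos (by omega)]
      push_cast
      rw [sub_self]
    have e3 : hexPt l 0 = ![0, 0] := by
      unfold hexPt
      rw [if_pos (by omega)]
      rfl
    simp [e1, e2, e3]

/-- For `1 ≤ l` and `a + 3 ≤ n ≤ (a + 1) (4 l + 3)` there are `n` integral points of `ℤ^(a+2)`, not in a hyperplane,
all of whose determinants are at most `4 l`. -/
theorem exists_hex {a l n : ℕ} (hl : 1 ≤ l) (h1 : a + 2 + 1 ≤ n) (h2 : n ≤ (a + 1) * (4 * l + 3)) :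
    ∃ X : Fin n → Fin (a + 2) → ℤ, Function.Injective X ∧
      affineSpan ℝ (Set.range fun i => cast (X i)) = ⊤ ∧
      ∀ u : Fin (a + 2 + 1) → Fin n,
        |(Matrix.of fun i j : Fin (a + 2) => X (u i.succ) j - X (u 0) j).det| ≤ ((4 * l : ℕ) : ℤ) :=
  exists_config (hexSet l) _ ⟨_, mem_image_of_mem _ (mem_range.2 (show 0 < 4 * l + 3 by omega))⟩
    (hex_det l) (hex_ne l hl) n h1 (by rw [card_hexSet]; exact h2)

end H73SN
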